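import Mathlib
import Pool.Agent.NSD.Null

/-!
A bi-Lipschitz bijection of Hilbert space for which the set of points with an onto Gateaux
derivative is Aronszajn null and has an Aronszajn null image.
-/

set_option autoImplicit false

namespace Pool.Agent.Results.MP_88ce7f_an.NowhereOntoBothSides

open MeasureTheory

/-- Aronszajn null sets: `E` is a Borel set and, for every sequence `u` whose linear span is
dense, `E` is a countable union of Borel sets `F n` such that `F n` meets every line in the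
direction `u n` in a set of one-dimensional Lebesgue measure zero. -/
def AronszajnNull {X : Type*} [NormedAddCommGroup X] [NormedSpace ℝ X] (E : Set X) : Prop :=
  MeasurableSet[borel X] E ∧
    ∀ u : ℕ → X, Dense (Submodule.span ℝ (Set.range u) : Set X) →
      ∃ F : ℕ → Set X, (∀ n, MeasurableSet[borel X] (F n)) ∧ E = ⋃ n, F n ∧
        ∀ n x, volume {t : ℝ | x + t • u n ∈ F n} = 0

/-- For every infinite-dimensional separable real Hilbert space `H` there are a bi-Lipschitz
bijection `φ` of `H` and Aronszajn null sets `E`, `E'` such that the inverse map is not Gateaux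
differentiable at `φ x` for any `x` outside `E`, the map `φ` is not Gateaux differentiable at
the preimage of any `y` outside `E'`, and consequently every point `x` at which `φ` has an onto
Gateaux derivative satisfies `x ∈ E` and `φ x ∈ E'`. -/
theorem result (H : Type*) [NormedAddCommGroup H] [InnerProductSpace ℝ H] [CompleteSpace H]
    [TopologicalSpace.SeparableSpace H] (hH : ¬ FiniteDimensional ℝ H) :
    ∃ φ : H ≃ₜ H, (∃ K K' : NNReal, LipschitzWith K φ ∧ LipschitzWith K' φ.symm) ∧
      ∃ E E' : Set H, AronszajnNull E ∧ AronszajnNull E' ∧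
        (∀ x, x ∉ E → ∃ v : H, ¬ LineDifferentiableAt ℝ φ.symm (φ x) v) ∧
        (∀ y, y ∉ E' → ∃ v : H, ¬ LineDifferentiableAt ℝ φ (φ.symm y) v) ∧
        ∀ (x : H) (A : H →L[ℝ] H), (∀ v : H, HasLineDerivAt ℝ φ (A v) x v) →
          Function.Surjective A → x ∈ E ∧ φ x ∈ E' := by
  obtain ⟨e, f, he, hf, hef⟩ := NSD.exists_two_families hH
  have hfe : ∀ l m, inner ℝ (f l) (e m) = 0 := fun l m => by
    rw [real_inner_comm]
    exact hef m l
  obtain ⟨X, Y, hL⟩ := NSD.exists_lim he
  obtain ⟨X', Y', hL'⟩ := NSD.exists_lim hf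
  have hexp : 0 ≤ Real.exp 2 := (Real.exp_pos 2).le
  have hX : LipschitzWith ⟨Real.exp 2, hexp⟩ (X 0) :=
    LipschitzWith.of_dist_le_mul fun x y => by
      rw [dist_eq_norm, dist_eq_norm]
      exact hL.lipX 0 x y
  have hY : LipschitzWith ⟨Real.exp 2, hexp⟩ (Y 0) :=
    LipschitzWith.of_dist_le_mul fun x y => by
      rw [dist_eq_norm, dist_eq_norm]
      exact hL.lipY 0 x y
  have hX' : LipschitzWith ⟨Real.exp 2, hexp⟩ (X' 0) :=
    LipschitzWith.of_dist_le_mul fun x y => by
      rw [dist_eq_norm, dist_eq_norm]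
      exact hL'.lipX 0 x y
  have hY' : LipschitzWith ⟨Real.exp 2, hexp⟩ (Y' 0) :=
    LipschitzWith.of_dist_le_mul fun x y => by
      rw [dist_eq_norm, dist_eq_norm]
      exact hL'.lipY 0 x y
  let φ : H ≃ₜ H :=
    { toFun := fun x => X 0 (Y' 0 x)
      invFun := fun y => X' 0 (Y 0 y)
      left_inv := fun x => by
        change X' 0 (Y 0 (X 0 (Y' 0 x))) = x
        rw [hL.YX, hL'.XY]
      right_inv := fun y => by
        change X 0 (Y' 0 (X' 0 (Y 0 y))) = y
        rw [hL'.YX, hL.XY]
      continuous_toFun := hX.continuous.comp hY'.continuous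
      continuous_invFun := hX'.continuous.comp hY.continuous }
  have h1 : ∀ x, x ∉ {x : H | ¬ ∃ k₀, NSD.Good e k₀ x} →
      ∃ v : H, ¬ LineDifferentiableAt ℝ φ.symm (φ x) v := by
    intro x hx
    have hx' : ∃ k₀, NSD.Good e k₀ x := by
      by_contra hcon
      exact hx hcon
    obtain ⟨k₀, hk₀⟩ := hx'
    exact NSD.mixed_not_lineDifferentiableAt hL he hL' hf hef hk₀
  have h2 : ∀ y, y ∉ {y : H | ¬ ∃ k₀, NSD.Good f k₀ y} →
      ∃ v : H, ¬ LineDifferentiableAt ℝ φ (φ.symm y) v := by
    intro y hy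
    have hy' : ∃ k₀, NSD.Good f k₀ y := by
      by_contra hcon
      exact hy hcon
    obtain ⟨k₀, hk₀⟩ := hy'
    exact NSD.mixed_not_lineDifferentiableAt hL' hf hL he hfe hk₀
  refine ⟨φ, ⟨_, _, hX.comp hY', hX'.comp hY⟩, {x | ¬ ∃ k₀, NSD.Good e k₀ x},
    {y | ¬ ∃ k₀, NSD.Good f k₀ y}, NSD.aronszajnNull_bad he, NSD.aronszajnNull_bad hf, h1, h2, ?_⟩
  intro x A hA hsurj
  constructor
  · by_contra hx
    obtain ⟨v, hv⟩ := h1 x hx
    apply hv
    have hK : ∀ p q, ‖φ.symm p - φ.symm q‖ ≤ (Real.exp 2 * Real.exp 2) * ‖p - q‖ := by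
      intro p q
      have := (hX'.comp hY).dist_le_mul p q
      rw [dist_eq_norm, dist_eq_norm] at this
      exact this
    exact NSD.lineDifferentiableAt_inverse hK φ.symm_apply_apply hA hsurj
  · by_contra hy
    obtain ⟨v, hv⟩ := h2 (φ x) hy
    rw [φ.symm_apply_apply] at hv
    exact hv (hA v).lineDifferentiableAt

end Pool.Agent.Results.MP_88ce7f_an.NowhereOntoBothSides
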